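import Mathlib

/-!
# Weil numbers and Tate classes: definitions and scaling
-/

set_option autoImplicit false

namespace Pool.Agent.H485R3.Density

/-- `π` is a Weil number of weight one for the power `p ^ a` of `p`: an algebraic integer all of
whose complex absolute values are `p ^ (a / 2)`. -/
def IsWeilNumber {K : Type*} [Field K] (p a : ℕ) (π : K) : Prop :=
  IsIntegral ℤ π ∧ ∀ φ : K →+* ℂ, ‖φ π‖ ^ 2 = (p : ℝ) ^ a

section

variable {Ω V : Type} [Field Ω] [AddCommGroup V] [Module Ω V]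

/-- `V` is spanned by eigenvectors of `F` whose eigenvalues are images of `ϖ` in `Ω`. -/
def HasEigenvalues {K : Type*} [Field K] (ϖ : K) (F : V →ₗ[Ω] V) : Prop :=
  Submodule.span Ω {v : V | ∃ σ : K →+* Ω, F v = σ ϖ • v} = ⊤

/-- The classes in `⋀ ^ (2 m) V` that are multiplied by `(Q ^ m) ^ s` by `F ^ s`. -/
def tateClasses (F : V →ₗ[Ω] V) (Q : Ω) (m s : ℕ) : Set (ExteriorAlgebra Ω V) :=
  {x | x ∈ ⋀[Ω]^(2 * m) V ∧ ExteriorAlgebra.map (F ^ s) x = (Q ^ m) ^ s • x}

end

/-- All Tate classes, over all finite extensions, in the even exterior powers of Frobenius modules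
with eigenvalues conjugate to `ϖ` are polynomials in the Tate classes of degree two. -/
def TateClassesGenerated {K : Type*} [Field K] (ϖ : K) (Q : ℕ) : Prop :=
  ∀ {Ω V : Type} [Field Ω] [IsAlgClosed Ω] [CharZero Ω] [AddCommGroup V] [Module Ω V]
    (F : V →ₗ[Ω] V), HasEigenvalues ϖ F → ∀ (m s : ℕ), 0 < s →
    ∀ x ∈ tateClasses F (Q : Ω) m s, x ∈ Algebra.adjoin Ω (tateClasses F (Q : Ω) 1 1)

theorem map_smul_deg {R M : Type*} [CommRing R] [AddCommGroup M] [Module R M] (c : R)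
    (f : M →ₗ[R] M) (n : ℕ) (x : ExteriorAlgebra R M) (hx : x ∈ ⋀[R]^n M) :
    ExteriorAlgebra.map (c • f) x = c ^ n • ExteriorAlgebra.map f x := by
  rw [← ExteriorAlgebra.ιMulti_span_fixedDegree] at hx
  induction hx using Submodule.span_induction with
  | mem x h =>
    obtain ⟨v, rfl⟩ := h
    rw [ExteriorAlgebra.map_apply_ιMulti, ExteriorAlgebra.map_apply_ιMulti]
    have h1 : ((c • f : M →ₗ[R] M) : M → M) ∘ v = fun i => c • (f ∘ v) i := rfl
    rw [h1]
    have h2 := (ExteriorAlgebra.ιMulti R n (M := M)).toMultilinearMap.map_smul_univ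
      (fun _ => c) (f ∘ v)
    rw [Finset.prod_const, Finset.card_univ, Fintype.card_fin] at h2
    exact h2
  | zero => rw [map_zero, map_zero, smul_zero]
  | add x y _ _ hx hy => rw [map_add, map_add, hx, hy, smul_add]
  | smul a x _ hx => rw [map_smul, map_smul, hx, smul_comm]

theorem generated_of_scaled {K : Type*} [Field K] (ϖ : K) (Q c : ℕ) (hc : 0 < c)
    (h : TateClassesGenerated ((c : K) * ϖ) (c ^ 2 * Q)) : TateClassesGenerated ϖ Q := by
  intro Ω V _ _ _ _ _ F hF m s hs x hx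
  have hc0 : (c : Ω) ≠ 0 := by exact_mod_cast hc.ne'
  have hF' : HasEigenvalues ((c : K) * ϖ) ((c : Ω) • F) := by
    unfold HasEigenvalues at hF ⊢
    rw [← top_le_iff, ← hF]
    apply Submodule.span_mono
    rintro v ⟨σ, hσ⟩
    refine ⟨σ, ?_⟩
    rw [LinearMap.smul_apply, hσ, map_mul, map_natCast, mul_smul]
  obtain ⟨hx1, hx2⟩ := hx
  have hxT : x ∈ tateClasses ((c : Ω) • F) (((c ^ 2 * Q : ℕ) : Ω)) m s := by
    refine ⟨hx1, ?_⟩
    rw [smul_pow, map_smul_deg _ _ _ _ hx1, hx2, smul_smul]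
    congr 1
    push_cast
    ring
  refine Algebra.adjoin_mono ?_ (h _ hF' m s hs x hxT)
  rintro y ⟨hy1, hy2⟩
  refine ⟨hy1, ?_⟩
  rw [pow_one, map_smul_deg _ _ _ _ hy1] at hy2
  push_cast at hy2
  rw [pow_one, pow_one, mul_smul] at hy2
  rw [pow_one, pow_one, pow_one]
  exact smul_right_injective _ (pow_ne_zero 2 hc0) hy2

end Pool.Agent.H485R3.Density
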