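import Mathlib
import Pool.Agent.H485R3.K3Exists
import Pool.Agent.H485R3.LineMain

/-!
# Lines of Weil numbers at a fixed absolute value
-/

set_option autoImplicit false

namespace Pool.Agent.H485R3

open Pool.Agent.H925R2 NumberField NumberField.IsCMField

theorem exists_k3' (p : ℕ) [Fact p.Prime] {K : Type*} [Field K] [NumberField K] [IsCMField K]
    (x₀ : K →+* ℚ_[p]) (x₁ : K →+* PadicAlgCl p)
    (hx₁ : x₁ = (algebraMap ℚ_[p] (PadicAlgCl p)).comp x₀) :
    ∃ (h : ℕ) (γ : 𝓞 K) (ω : K), 0 < h ∧ γ ≠ 0 ∧ primeOf p x₁ ^ h = Ideal.span {γ} ∧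
      (∃ d : 𝓞 K, (p : 𝓞 K) ^ h = γ * d) ∧
      ω * complexConj K (algebraMap (𝓞 K) K γ) = algebraMap (𝓞 K) K γ * (p : K) ^ h ∧
      ‖x₁ (algebraMap (𝓞 K) K γ)‖ < 1 ∧ ‖x₁ (complexConj K (algebraMap (𝓞 K) K γ))‖ = 1 ∧
      IsIntegral ℤ ω ∧ (∀ φ : K →+* ℂ, ‖φ ω‖ ^ 2 = (p : ℝ) ^ (2 * h)) ∧
      (∀ x : K →+* PadicAlgCl p, x ≠ x₁ → x.comp (complexConj K : K →+* K) ≠ x₁ →
        dev p ((p : ℚ) ^ (2 * h)) (x ω) = 0) ∧ dev p ((p : ℚ) ^ (2 * h)) (x₁ ω) ≠ 0 := by
  obtain ⟨h, γ, hh, hγ0, hγ⟩ := exists_principal_pow (primeOf p x₁) (primeOf_ne_bot p x₁)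
  have hgen := norm_gen_eq_one p x₀ x₁ hx₁ h γ hh hγ0 hγ
  have hp : p.Prime := Fact.out
  set g : K := algebraMap (𝓞 K) K γ with hg
  have hg0 : g ≠ 0 := by
    intro h1
    exact hγ0 ((FaithfulSMul.algebraMap_injective (𝓞 K) K) (h1.trans (map_zero _).symm))
  have hcg0 : complexConj K g ≠ 0 := (map_ne_zero _).2 hg0
  have hp0 : (p : K) ≠ 0 := by exact_mod_cast hp.ne_zero
  have hdvd : ∃ d : 𝓞 K, (p : 𝓞 K) ^ h = γ * d := by
    have h1 : (p : 𝓞 K) ^ h ∈ primeOf p x₁ ^ h := Ideal.pow_mem_pow (p_mem_primeOf p x₁) h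
    rw [hγ, Ideal.mem_span_singleton'] at h1
    obtain ⟨d, hd⟩ := h1
    exact ⟨d, by rw [← hd, mul_comm]⟩
  have hdvd' := hdvd
  obtain ⟨d, hd⟩ := hdvd
  have hdK : (p : K) ^ h = g * algebraMap (𝓞 K) K d := by
    have h1 := congrArg (algebraMap (𝓞 K) K) hd
    rwa [map_mul, map_pow, map_natCast] at h1
  have hcd : (p : K) ^ h = complexConj K g * complexConj K (algebraMap (𝓞 K) K d) := by
    have h1 := congrArg (complexConj K) hdK
    rwa [map_mul, map_pow, map_natCast] at h1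
  set ω : K := g * complexConj K (algebraMap (𝓞 K) K d) with hω
  have hω' : ω * complexConj K g = g * (p : K) ^ h := by
    rw [hω, hcd]
    ring
  have hdev : ∀ x : K →+* PadicAlgCl p, dev p ((p : ℚ) ^ (2 * h)) (x ω) =
      2 * (Real.log ‖x g‖ - Real.log ‖x (complexConj K g)‖) := by
    intro x
    have h1 : Real.log ‖x ω‖ = Real.log ‖x g‖ + h * Real.log ‖(p : PadicAlgCl p)‖ -
        Real.log ‖x (complexConj K g)‖ := by
      have h2 := congrArg (fun z => Real.log ‖x z‖) hω'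
      simp only [map_mul, norm_mul, map_pow, map_natCast, norm_pow] at h2
      have hω0 : ω ≠ 0 := by
        intro h3
        rw [h3, zero_mul] at hω'
        exact mul_ne_zero hg0 (pow_ne_zero _ hp0) hω'.symm
      have hpp : (p : PadicAlgCl p) ≠ 0 := by exact_mod_cast hp.ne_zero
      rw [Real.log_mul (norm_ne_zero_iff.2 ((map_ne_zero x).2 hω0))
        (norm_ne_zero_iff.2 ((map_ne_zero x).2 hcg0)),
        Real.log_mul (norm_ne_zero_iff.2 ((map_ne_zero x).2 hg0))
        (pow_ne_zero _ (norm_ne_zero_iff.2 hpp)), Real.log_pow] at h2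
      linarith
    unfold dev
    rw [h1]
    push_cast
    rw [norm_pow, Real.log_pow]
    push_cast
    ring
  have hne : x₁.comp (complexConj K : K →+* K) ≠ x₁ := by
    intro h1
    apply complexConj_ne_one K
    ext z
    apply x₁.injective
    exact congrArg (fun f : K →+* PadicAlgCl p => f z) h1
  have hn1 := hgen _ hne
  change ‖x₁ (complexConj K g)‖ = 1 at hn1
  have hn2 : ‖x₁ g‖ < 1 := by
    have h3 : γ ^ 1 ∈ primeOf p x₁ := by
      rw [pow_one]
      have h4 : γ ∈ primeOf p x₁ ^ h := by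
        rw [hγ]
        exact Ideal.mem_span_singleton_self γ
      exact Ideal.pow_le_self hh.ne' h4
    rw [pow_one] at h3
    exact h3
  refine ⟨h, γ, ω, hh, hγ0, hγ, hdvd', hω', hn2, hn1, ?_, ?_, ?_, ?_⟩
  · refine IsIntegral.mul γ.isIntegral_coe ?_
    exact (d.isIntegral_coe).map ((complexConj K : K →+* K).toIntAlgHom)
  · intro φ
    have h1 := congrArg (fun z => ‖φ z‖) hω'
    simp only [map_mul, norm_mul, map_pow, map_natCast, norm_pow] at h1
    rw [complexEmbedding_complexConj, Complex.norm_natCast] at h1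
    have h2 : ‖starRingEnd ℂ (φ g)‖ = ‖φ g‖ := Complex.norm_conj _
    rw [h2, mul_comm] at h1
    have h3 : ‖φ g‖ ≠ 0 := norm_ne_zero_iff.2 ((map_ne_zero φ).2 hg0)
    have h4 := mul_left_cancel₀ h3 h1
    rw [h4, ← pow_mul, mul_comm]
  · intro x hx hxc
    rw [hdev, hgen x hx]
    have h1 := hgen _ hxc
    change ‖x (complexConj K g)‖ = 1 at h1
    rw [h1]
    simp
  · rw [hdev, hn1, Real.log_one, sub_zero]
    have h3 : 0 < ‖x₁ g‖ := norm_pos_iff.2 ((map_ne_zero x₁).2 hg0)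
    have h4 := Real.log_neg h3 hn2
    intro h5
    linarith

theorem line_of (p : ℕ) [Fact p.Prime] {K : Type*} [Field K] [NumberField K] [IsCMField K]
    (x₁ : K →+* PadicAlgCl p) (ω : K) (b : ℕ)
    (hωw : ∀ φ : K →+* ℂ, ‖φ ω‖ ^ 2 = (p : ℝ) ^ b)
    (hω1 : ∀ x : K →+* PadicAlgCl p, x ≠ x₁ → x.comp (complexConj K : K →+* K) ≠ x₁ →
        dev p ((p : ℚ) ^ b) (x ω) = 0) (hω2 : dev p ((p : ℚ) ^ b) (x₁ ω) ≠ 0)
    (π : K) (a : ℕ) (hπw : ∀ φ : K →+* ℂ, ‖φ π‖ ^ 2 = (p : ℝ) ^ a) :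
    ∃ S : Finset ℕ, S.card ≤ Module.finrank ℚ K / 2 ∧ ∀ k ∉ S,
    ∀ {Ω : Type*} [Field Ω] [IsAlgClosed Ω] [CharZero Ω] {V : Type*} [AddCommGroup V] [Module Ω V]
      (F : V →ₗ[Ω] V), Submodule.span Ω {v : V | ∃ σ : K →+* Ω, F v = σ (π * ω ^ k) • v} = ⊤ →
    ∀ (m s : ℕ), 0 < s → ∀ x ∈ ⋀[Ω]^(2 * m) V,
      ExteriorAlgebra.map (F ^ s) x = (((p : Ω) ^ (a + b * k)) ^ m) ^ s • x →
      x ∈ Algebra.adjoin Ω {y : ExteriorAlgebra Ω V | y ∈ ⋀[Ω]^2 V ∧
        ExteriorAlgebra.map F y = (p : Ω) ^ (a + b * k) • y} := by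
  classical
  obtain ⟨A, _, _, _, _⟩ := exists_algClosure
  have hp : p.Prime := Fact.out
  let c : K ≃ₐ[ℚ] K := (complexConj K).restrictScalars ℚ
  have hcv : ∀ z, c z = complexConj K z := fun z => rfl
  have hc2 : ∀ z, c (c z) = z := complexConj_apply_apply K
  have hc1 : ∃ z, c z ≠ z := by
    by_contra h
    push Not at h
    exact complexConj_ne_one K (AlgEquiv.ext h)
  let x₁' : K →ₐ[ℚ] PadicAlgCl p := x₁.toRatAlgHom
  have hq : (0 : ℚ) < (p : ℚ) ^ a := pow_pos (by exact_mod_cast hp.pos) _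
  have hq' : (0 : ℚ) < (p : ℚ) ^ b := pow_pos (by exact_mod_cast hp.pos) _
  obtain ⟨S, hS1, hS2⟩ := line_norel A p c hc2 hc1 x₁' π ω ((p : ℚ) ^ a) ((p : ℚ) ^ b) hq hq'
    (by rw [hcv, mul_conj_eq p π a hπw, map_pow, map_natCast])
    (by rw [hcv, mul_conj_eq p ω b hωw, map_pow, map_natCast])
    (by
      intro x hx hx'
      refine hω1 x.toRingHom ?_ ?_
      · intro h
        apply hx
        ext z
        exact congrArg (fun f : K →+* PadicAlgCl p => f z) h
      · intro h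
        apply hx'
        ext z
        have h1 : x (complexConj K (complexConj K z)) = x₁ (complexConj K z) :=
          congrArg (fun f : K →+* PadicAlgCl p => f (complexConj K z)) h
        rw [complexConj_apply_apply] at h1
        exact h1) hω2
  refine ⟨S, ?_, ?_⟩
  · rwa [AlgHom.card] at hS1
  · intro k hk Ω _ _ _ V _ _ F hF m s hs x hx hFx
    have hqk : (p : ℚ) ^ a * ((p : ℚ) ^ b) ^ k = (p : ℚ) ^ (a + b * k) := by
      rw [← pow_mul, pow_add]
    have hno := hS2 k hk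
    rw [hqk] at hno
    refine good_of_norel A p c hc2 hc1 (π * ω ^ k) (a + b * k) ?_ hno F ?_ m s hs x hx hFx
    · rw [map_mul, map_pow, hcv, hcv]
      have h1 := mul_conj_eq p π a hπw
      have h2 := mul_conj_eq p ω b hωw
      calc π * ω ^ k * (complexConj K π * complexConj K ω ^ k)
          = (π * complexConj K π) * (ω * complexConj K ω) ^ k := by ring
        _ = _ := by rw [h1, h2, ← pow_mul, ← pow_add, map_pow, map_natCast]
    · rw [← hF]
      congr 1
      ext v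
      constructor
      · rintro ⟨σ, h2⟩
        exact ⟨σ.toRingHom, h2⟩
      · rintro ⟨σ, h2⟩
        exact ⟨σ.toRatAlgHom, h2⟩

/-- Every Weil number lies on a long segment of a line. -/
theorem exists_segment (p : ℕ) [Fact p.Prime] {K : Type*} [Field K] [NumberField K] [IsCMField K]
    (x₁ : K →+* PadicAlgCl p) (h : ℕ) (hh : 0 < h) (γ : 𝓞 K) (hγ0 : γ ≠ 0)
    (hγ : primeOf p x₁ ^ h = Ideal.span {γ}) (d : 𝓞 K) (hd : (p : 𝓞 K) ^ h = γ * d)
    (g : K) (hg : g = algebraMap (𝓞 K) K γ) (π : K) (hπ : IsIntegral ℤ π) (a : ℕ)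
    (hπa : π * complexConj K π = (p : K) ^ a) :
    ∃ (k₁ k₂ : ℕ), a / h ≤ k₁ + k₂ + 1 ∧ ∀ k ≤ k₁ + k₂,
      IsIntegral ℤ (π * (complexConj K g / g) ^ k₁ * (g / complexConj K g) ^ k) := by
  have hp : p.Prime := Fact.out
  have hg0 : g ≠ 0 := by
    intro h1
    rw [hg] at h1
    exact hγ0 ((FaithfulSMul.algebraMap_injective (𝓞 K) K) (h1.trans (map_zero _).symm))
  have hcg0 : complexConj K g ≠ 0 := (map_ne_zero _).2 hg0
  have hp0 : (p : K) ≠ 0 := by exact_mod_cast hp.ne_zero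
  have hπ0 : π ≠ 0 := by
    rintro rfl
    rw [zero_mul] at hπa
    exact pow_ne_zero _ hp0 hπa.symm
  have hconj : ∀ z : K, IsIntegral ℤ z → IsIntegral ℤ (complexConj K z) := fun z hz =>
    hz.map ((complexConj K : K →+* K).toIntAlgHom)
  have hgint : IsIntegral ℤ g := by
    rw [hg]
    exact γ.isIntegral_coe
  have hP0 := primeOf_ne_bot p x₁
  have hPp := primeOf_isPrime p x₁
  let w : 𝓞 K := ⟨π, hπ⟩
  let w' : 𝓞 K := ⟨complexConj K π, hconj π hπ⟩
  have hw : algebraMap (𝓞 K) K w = π := rfl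
  have hw' : algebraMap (𝓞 K) K w' = complexConj K π := rfl
  have hinj := FaithfulSMul.algebraMap_injective (𝓞 K) K
  have hw0 : w ≠ 0 := by
    intro h1
    apply hπ0
    rw [← hw, h1, map_zero]
  have hw'0 : w' ≠ 0 := by
    intro h1
    apply (map_ne_zero (complexConj K)).2 hπ0
    rw [← hw', h1, map_zero]
  obtain ⟨m, b, hmb, hb⟩ := pow_decomp' (primeOf p x₁) hP0 hPp h γ hγ0 hγ w hw0
  obtain ⟨m', b', hmb', hb'⟩ := pow_decomp' (primeOf p x₁) hP0 hPp h γ hγ0 hγ w' hw'0
  have hγP : γ ∈ primeOf p x₁ := by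
    have h4 : γ ∈ primeOf p x₁ ^ h := by
      rw [hγ]
      exact Ideal.mem_span_singleton_self γ
    exact Ideal.pow_le_self hh.ne' h4
  have hamm : a ≤ m + m' := by
    by_contra hlt
    rw [not_le] at hlt
    have h1 : w * w' = (p : 𝓞 K) ^ a := by
      apply hinj
      rw [map_mul, hw, hw', hπa, map_pow, map_natCast]
    have h2 : γ ^ (m + m') * (b * b') = γ ^ (m + m') * (γ ^ (a - (m + m')) * d ^ a) := by
      calc γ ^ (m + m') * (b * b') = (γ ^ m * b) * (γ ^ m' * b') := by rw [pow_add]; ring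
        _ = (w * w') ^ h := by rw [← hmb, ← hmb', mul_pow]
        _ = ((p : 𝓞 K) ^ h) ^ a := by rw [h1, ← pow_mul, ← pow_mul, mul_comm]
        _ = γ ^ a * d ^ a := by rw [hd, mul_pow]
        _ = γ ^ (m + m' + (a - (m + m'))) * d ^ a := by rw [Nat.add_sub_of_le hlt.le]
        _ = _ := by rw [pow_add]; ring
    have h3 := mul_left_cancel₀ (pow_ne_zero _ hγ0) h2
    have h4 : b * b' ∈ primeOf p x₁ := by
      rw [h3]
      apply Ideal.mul_mem_right
      obtain ⟨e, he⟩ := Nat.exists_eq_succ_of_ne_zero (Nat.sub_ne_zero_of_lt hlt)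
      rw [he, pow_succ]
      exact Ideal.mul_mem_left _ _ hγP
    rcases hPp.mem_or_mem h4 with h5 | h5
    · exact hb h5
    · exact hb' h5
  -- divisibility
  have hdiv : ∀ (z : K) (n : ℕ) (β : 𝓞 K), z ^ h = g ^ n * algebraMap (𝓞 K) K β →
      IsIntegral ℤ (z / g ^ (n / h)) := by
    intro z n β hz
    apply IsIntegral.of_pow hh
    have h1 : (z / g ^ (n / h)) ^ h = g ^ (n - n / h * h) * algebraMap (𝓞 K) K β := by
      rw [div_pow, hz, ← pow_mul, div_eq_iff (pow_ne_zero _ hg0)]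
      have h2 : n = (n - n / h * h) + n / h * h := by
        have := Nat.div_mul_le_self n h
        omega
      conv_lhs => rw [h2, pow_add]
      ring
    rw [h1]
    exact (hgint.pow _).mul β.isIntegral_coe
  have h1 : IsIntegral ℤ (π / g ^ (m / h)) := by
    apply hdiv π m b
    have h2 := congrArg (algebraMap (𝓞 K) K) hmb
    rw [map_pow, map_mul, map_pow, hw, ← hg] at h2
    exact h2
  have h2 : IsIntegral ℤ (complexConj K π / g ^ (m' / h)) := by
    apply hdiv (complexConj K π) m' b'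
    have h2 := congrArg (algebraMap (𝓞 K) K) hmb'
    rw [map_pow, map_mul, map_pow, hw', ← hg] at h2
    exact h2
  have h3 : IsIntegral ℤ (π / complexConj K g ^ (m' / h)) := by
    have h4 := hconj _ h2
    rw [map_div₀, complexConj_apply_apply, map_pow] at h4
    exact h4
  refine ⟨m / h, m' / h, ?_, ?_⟩
  · have h4 := Nat.div_add_mod m h
    have h5 := Nat.div_add_mod m' h
    have h6 := Nat.mod_lt m hh
    have h7 := Nat.mod_lt m' hh
    have h8 : a < h * (m / h + m' / h + 1 + 1) := by nlinarith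
    have h9 : a / h < m / h + m' / h + 1 + 1 := Nat.div_lt_of_lt_mul h8
    omega
  · intro k hk
    rcases le_or_gt k (m / h) with hk1 | hk1
    · have h4 : π * (complexConj K g / g) ^ (m / h) * (g / complexConj K g) ^ k =
          (π / g ^ (m / h)) * g ^ k * complexConj K g ^ (m / h - k) := by
        have h5 : complexConj K g ^ (m / h) = complexConj K g ^ (m / h - k) *
            complexConj K g ^ k := by
          rw [← pow_add]
          congr 1
          omega
        rw [div_pow, div_pow, h5]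
        field_simp
      rw [h4]
      exact (h1.mul (hgint.pow _)).mul ((hconj _ hgint).pow _)
    · have h4 : π * (complexConj K g / g) ^ (m / h) * (g / complexConj K g) ^ k =
          (π / complexConj K g ^ (m' / h)) * complexConj K g ^ (m' / h - (k - m / h)) *
            g ^ (k - m / h) := by
        have h5 : g ^ k = g ^ (k - m / h) * g ^ (m / h) := by
          rw [← pow_add]
          congr 1
          omega
        have h6 : complexConj K g ^ k = complexConj K g ^ (k - m / h) *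
            complexConj K g ^ (m / h) := by
          rw [← pow_add]
          congr 1
          omega
        have h7 : complexConj K g ^ (m' / h) = complexConj K g ^ (m' / h - (k - m / h)) *
            complexConj K g ^ (k - m / h) := by
          rw [← pow_add]
          congr 1
          omega
        rw [div_pow, div_pow, h5, h6, h7]
        field_simp
      rw [h4]
      exact (h3.mul ((hconj _ hgint).pow _)).mul (hgint.pow _)

end Pool.Agent.H485R3
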