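import Mathlib
import Pool.Agent.H485R3.Density.Defs
import Pool.Agent.H485R3.Density.K3

/-!
# The proportion of Weil numbers with exotic Tate classes
-/

set_option autoImplicit false

namespace Pool.Agent.H485R3.Density

open Pool.Agent.H485R3 Pool.Agent.H925R2 NumberField NumberField.IsCMField

theorem weil_finite (p : ℕ) [Fact p.Prime] (K : Type*) [Field K] [NumberField K] (a : ℕ) :
    {π : K | IsWeilNumber p a π}.Finite := by
  refine (NumberField.Embeddings.finite_of_norm_le K ℂ ((p : ℝ) ^ a)).subset ?_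
  rintro π ⟨h1, h2⟩
  refine ⟨h1, fun φ => ?_⟩
  have hp : (1 : ℝ) ≤ (p : ℝ) ^ a := one_le_pow₀ (by exact_mod_cast (Fact.out : p.Prime).one_lt.le)
  have h3 := h2 φ
  nlinarith [norm_nonneg (φ π)]

theorem density_main (p : ℕ) [Fact p.Prime] {K : Type*} [Field K] [NumberField K] [IsCMField K]
    (x₀ : K →+* ℚ_[p]) :
    ∃ h : ℕ, 0 < h ∧ ∀ a : ℕ,
      {π : K | IsWeilNumber p a π ∧ ¬ TateClassesGenerated π (p ^ a)}.ncard * (a / h) ≤
        {π : K | IsWeilNumber p a π}.ncard * (Module.finrank ℚ K / 2) := by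
  classical
  obtain ⟨h, γ, ω, hh, hγ0, hγ, ⟨d, hd⟩, hω', hn1, hn2, hωint, hωw, hω1, hω2⟩ := exists_k3' p x₀
    ((algebraMap ℚ_[p] (PadicAlgCl p)).comp x₀) rfl
  set x₁ : K →+* PadicAlgCl p := (algebraMap ℚ_[p] (PadicAlgCl p)).comp x₀ with hx₁
  set g : K := algebraMap (𝓞 K) K γ with hg
  have hp : p.Prime := Fact.out
  have hp0 : (p : K) ≠ 0 := by exact_mod_cast hp.ne_zero
  have hg0 : g ≠ 0 := by
    intro h1
    rw [hg] at h1
    exact hγ0 ((FaithfulSMul.algebraMap_injective (𝓞 K) K) (h1.trans (map_zero _).symm))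
  have hcg0 : complexConj K g ≠ 0 := (map_ne_zero _).2 hg0
  let η : K := g / complexConj K g
  have hη0 : η ≠ 0 := div_ne_zero hg0 hcg0
  have hωη : ω = (p : K) ^ h * η := by
    have : ω = g * (p : K) ^ h / complexConj K g := by
      rw [← hω', mul_div_cancel_right₀ _ hcg0]
    rw [this]
    simp only [η]
    ring
  have hηnorm : ∀ φ : K →+* ℂ, ‖φ η‖ = 1 := by
    intro φ
    simp only [η]
    rw [map_div₀, norm_div, complexEmbedding_complexConj, Complex.norm_conj]
    exact div_self (norm_ne_zero_iff.2 ((map_ne_zero φ).2 hg0))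
  have hηx : ‖x₁ η‖ < 1 := by
    simp only [η]
    rw [map_div₀, norm_div, hn2, div_one]
    exact hn1
  have hηinj : ∀ j j' : ℤ, η ^ j = η ^ j' → j = j' := by
    intro j j' hjj
    have h1 : ‖x₁ η‖ ^ j = ‖x₁ η‖ ^ j' := by
      rw [← norm_zpow, ← norm_zpow, ← map_zpow₀, ← map_zpow₀, hjj]
    exact zpow_right_injective₀ (norm_pos_iff.2 ((map_ne_zero x₁).2 hη0)) hηx.ne h1
  refine ⟨h, hh, fun a => ?_⟩
  have hfin := weil_finite p K a
  have hfin' : {π : K | IsWeilNumber p a π ∧ ¬ TateClassesGenerated π (p ^ a)}.Finite :=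
    hfin.subset fun π hπ => hπ.1
  rw [Set.ncard_eq_toFinset_card _ hfin, Set.ncard_eq_toFinset_card _ hfin']
  let R : K → K → Prop := fun π π' => ∃ j : ℤ, π' = π * η ^ j
  refine Finset.card_mul_le_card_mul R ?_ ?_
  · -- long segments
    intro π hπ
    rw [Set.Finite.mem_toFinset] at hπ
    obtain ⟨⟨hπint, hπw⟩, _⟩ := hπ
    obtain ⟨k₁, k₂, hk, hseg⟩ := exists_segment p x₁ h hh γ hγ0 hγ d hd g hg π hπint a
      (mul_conj_eq p π a hπw)
    refine hk.trans ?_
    rw [← Finset.card_range (k₁ + k₂ + 1)]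
    refine Finset.card_le_card_of_injOn
      (fun k => π * (complexConj K g / g) ^ k₁ * (g / complexConj K g) ^ k) ?_ ?_
    · intro k hk'
      rw [Finset.mem_coe, Finset.mem_range] at hk'
      rw [Finset.mem_coe, Finset.mem_bipartiteAbove, Set.Finite.mem_toFinset]
      refine ⟨⟨hseg k (by omega), fun φ => ?_⟩, (k : ℤ) - k₁, ?_⟩
      · have h1 : complexConj K g / g = η⁻¹ := (inv_div _ _).symm
        rw [h1, map_mul, map_mul, map_pow, map_pow, norm_mul, norm_mul, norm_pow, norm_pow,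
          map_inv₀, norm_inv]
        change (‖φ π‖ * ‖φ η‖⁻¹ ^ k₁ * ‖φ η‖ ^ k) ^ 2 = _
        rw [hηnorm, inv_one, one_pow, one_pow, mul_one, mul_one]
        exact hπw φ
      · have h1 : complexConj K g / g = η⁻¹ := (inv_div _ _).symm
        beta_reduce
        rw [h1, zpow_sub₀ hη0, zpow_natCast, zpow_natCast, inv_pow]
        change π * (η ^ k₁)⁻¹ * η ^ k = _
        rw [div_eq_mul_inv]
        ring
    · intro k _ k' _ hkk
      have hπ0 : π ≠ 0 := by
        intro h0
        have h2 := mul_conj_eq p π a hπw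
        rw [h0, zero_mul] at h2
        exact pow_ne_zero _ hp0 h2.symm
      have h1 : π * (complexConj K g / g) ^ k₁ ≠ 0 :=
        mul_ne_zero hπ0 (pow_ne_zero _ (div_ne_zero hcg0 hg0))
      have h2 : η ^ k = η ^ k' := mul_left_cancel₀ h1 hkk
      have h3 := hηinj k k' (by rw [zpow_natCast, zpow_natCast]; exact h2)
      exact_mod_cast h3
  · -- few exceptions on a line
    intro π' hπ'
    set T := Finset.bipartiteBelow R hfin'.toFinset π' with hT
    have hTmem : ∀ t, t ∈ T ↔ (IsWeilNumber p a t ∧ ¬ TateClassesGenerated t (p ^ a)) ∧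
        R t π' := by
      intro t
      rw [hT, Finset.mem_bipartiteBelow, Set.Finite.mem_toFinset]
      rfl
    rcases T.eq_empty_or_nonempty with hemp | hne
    · rw [hemp, Finset.card_empty]
      exact Nat.zero_le _
    have hR : ∀ t : K, ∃ j : ℤ, t ∈ T → t = π' * η ^ j := by
      intro t
      by_cases ht : t ∈ T
      · obtain ⟨j, hj⟩ := ((hTmem t).1 ht).2
        refine ⟨-j, fun _ => ?_⟩
        rw [hj, mul_assoc, ← zpow_add₀ hη0, add_neg_cancel, zpow_zero, mul_one]
      · exact ⟨0, fun h => absurd h ht⟩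
    choose e he using hR
    obtain ⟨t₀, ht₀, hmin⟩ := T.exists_min_image e hne
    obtain ⟨S, hS1, hS2⟩ := line_of p x₁ ω (2 * h) hωw hω1 hω2 t₀ a ((hTmem t₀).1 ht₀).1.1.2
    refine le_trans ?_ hS1
    have hform : ∀ t ∈ T, t = t₀ * η ^ (e t - e t₀).toNat := by
      intro t ht
      have h1 : (((e t - e t₀).toNat : ℕ) : ℤ) = e t - e t₀ :=
        Int.toNat_of_nonneg (sub_nonneg.2 (hmin t ht))
      rw [← zpow_natCast, h1]
      have h2 := he t ht
      have h3 := he t₀ ht₀
      calc t = π' * η ^ e t := h2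
        _ = π' * η ^ e t₀ * η ^ (e t - e t₀) := by
          rw [mul_assoc, ← zpow_add₀ hη0]
          congr 2
          ring
        _ = t₀ * η ^ (e t - e t₀) := by rw [← h3]
    refine Finset.card_le_card_of_injOn (fun t => (e t - e t₀).toNat) ?_ ?_
    · intro t ht
      rw [Finset.mem_coe] at ht ⊢
      by_contra hnot
      set k := (e t - e t₀).toNat with hk
      apply ((hTmem t).1 ht).1.2
      apply generated_of_scaled t (p ^ a) (p ^ (h * k)) (pow_pos hp.pos _)
      have h2 : (((p ^ (h * k) : ℕ) : K)) * t = t₀ * ω ^ k := by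
        rw [hform t ht, ← hk, hωη, mul_pow, ← pow_mul]
        push_cast
        ring
      have h3 : (p ^ (h * k)) ^ 2 * p ^ a = p ^ (a + 2 * h * k) := by
        rw [← pow_mul, ← pow_add]
        congr 1
        ring
      rw [h2, h3]
      intro Ω V _ _ _ _ _ F hF m s hs x hx
      obtain ⟨hx1, hx2⟩ := hx
      have h4 := hS2 k hnot F hF m s hs x hx1 (by
        rw [hx2]
        push_cast
        rfl)
      have h5 : tateClasses F (((p ^ (a + 2 * h * k) : ℕ) : Ω)) 1 1 =
          {y : ExteriorAlgebra Ω V | y ∈ ⋀[Ω]^2 V ∧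
            ExteriorAlgebra.map F y = (p : Ω) ^ (a + 2 * h * k) • y} := by
        ext y
        simp only [tateClasses, mul_one, pow_one]
        push_cast
        rfl
      rw [h5]
      exact h4
    · intro t ht t' ht' htt
      rw [Finset.mem_coe] at ht ht'
      rw [hform t ht, hform t' ht']
      have h6 : (e t - e t₀).toNat = (e t' - e t₀).toNat := htt
      rw [h6]

end Pool.Agent.H485R3.Density
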